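import Pool.Agent.Helper49.TP.StW

/-!
# Project TP, module NWA: numbers for the random subset (helper45)
-/

set_option autoImplicit false

namespace Pool.Agent.Helper45.TP

open Finset Pool.Agent.Helper49.TP Pool.Agent.Helper93.IA Pool.Agent.Helper17.IA

private theorem cube {M : ℝ} (hM : 0 ≤ M) : (M ^ ((2 : ℝ) / 3)) ^ 3 = M ^ 2 := by
  rw [← Real.rpow_natCast (M ^ ((2 : ℝ) / 3)) 3, ← Real.rpow_mul hM, ← Real.rpow_natCast M 2]
  norm_num

private theorem expBound {x : ℝ} (hx : 0 < x) : Real.exp (-x) ≤ 479001600 / x ^ 12 := by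
  have h1 := Real.pow_div_factorial_le_exp x hx.le 12
  have h2 : ((Nat.factorial 12 : ℕ) : ℝ) = 479001600 := by norm_num [Nat.factorial]
  rw [h2] at h1
  rw [Real.exp_neg, inv_eq_one_div, div_le_div_iff₀ (Real.exp_pos x) (by positivity)]
  rw [div_le_iff₀ (by norm_num)] at h1
  linarith

private theorem expo {s n : ℝ} (hn : 0 < n) :
    -(s / (16 * n)) * (s / 4) + 2 * (s / (16 * n)) ^ 2 * n = -(s ^ 2 / (128 * n)) := by
  field_simp
  ring

private theorem xsix {s M n ξ : ℝ} (hn : 0 < n) (hξ : 0 < ξ) (hs : s ^ 3 = M ^ 2)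
    (hM : ξ * n / 2 ≤ M) : ξ ^ 8 * n ^ 2 / 2 ^ 50 ≤ (s ^ 2 / (128 * n)) ^ 6 := by
  have h1 : (s ^ 2 / (128 * n)) ^ 6 = M ^ 8 / (2 ^ 42 * n ^ 6) := by
    have h2 : s ^ 12 = M ^ 8 := by
      calc s ^ 12 = (s ^ 3) ^ 4 := by ring
        _ = M ^ 8 := by rw [hs]; ring
    rw [div_pow, mul_pow, ← pow_mul, h2]
    norm_num
  have h3 : (ξ * n / 2) ^ 8 ≤ M ^ 8 := pow_le_pow_left₀ (by positivity) hM 8
  rw [h1, div_le_div_iff₀ (by positivity) (by positivity)]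
  have h4 : ξ ^ 8 * n ^ 2 * (2 ^ 42 * n ^ 6) = (ξ * n / 2) ^ 8 * 2 ^ 50 := by
    ring
  rw [h4]
  exact mul_le_mul_of_nonneg_right h3 (by positivity)

private theorem xtwelve {x n ξ : ℝ} (hn : 0 < n) (hξ : 0 < ξ)
    (h : ξ ^ 8 * n ^ 2 / 2 ^ 50 ≤ x ^ 6) : ξ ^ 16 * n ^ 4 / 2 ^ 100 ≤ x ^ 12 := by
  have h1 := pow_le_pow_left₀ (by positivity) h 2
  calc ξ ^ 16 * n ^ 4 / 2 ^ 100 = (ξ ^ 8 * n ^ 2 / 2 ^ 50) ^ 2 := by ring
    _ ≤ (x ^ 6) ^ 2 := h1
    _ = x ^ 12 := by ring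

private theorem final {n ξ x : ℝ} (hn : 1 ≤ n) (hξ : 0 < ξ) (hx : 0 < x)
    (h1 : ξ ^ 16 * n ^ 4 / 2 ^ 100 ≤ x ^ 12) (h2 : 4790016000 * 2 ^ 100 / ξ ^ 16 < n) :
    (4 * n ^ 2 + 1) * (2 * Real.exp (-x)) < 1 := by
  have h3 := expBound hx
  have hn0 : 0 < n := by linarith
  have h4 : 479001600 / x ^ 12 ≤ 479001600 * 2 ^ 100 / (ξ ^ 16 * n ^ 4) := by
    rw [div_le_div_iff₀ (by positivity) (by positivity)]
    rw [div_le_iff₀ (by positivity)] at h1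
    linarith
  have h5 : Real.exp (-x) ≤ 479001600 * 2 ^ 100 / (ξ ^ 16 * n ^ 4) := h3.trans h4
  have hn2 : 1 ≤ n ^ 2 := one_le_pow₀ hn
  have h6 : (4 * n ^ 2 + 1) * (2 * Real.exp (-x)) ≤
      5 * n ^ 2 * (2 * (479001600 * 2 ^ 100 / (ξ ^ 16 * n ^ 4))) := by
    apply mul_le_mul
    · linarith
    · linarith
    · positivity
    · positivity
  refine lt_of_le_of_lt h6 ?_
  have h7 : 5 * n ^ 2 * (2 * (479001600 * 2 ^ 100 / (ξ ^ 16 * n ^ 4))) =
      4790016000 * 2 ^ 100 / ξ ^ 16 / n ^ 2 := by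
    field_simp
    norm_num
  rw [h7, div_lt_one (by positivity)]
  refine h2.trans_le ?_
  nlinarith

theorem hNWA : StNWA := by
  intro ξ hξ hξ2
  refine ⟨max ⌈16 / ξ⌉₊ (⌈4790016000 * 2 ^ 100 / ξ ^ 16⌉₊ + 1), fun n hn => ?_⟩
  have hn1 : 16 / ξ ≤ n := by
    refine (Nat.le_ceil _).trans ?_
    exact_mod_cast (le_max_left _ _).trans hn
  have hn2 : 4790016000 * 2 ^ 100 / ξ ^ 16 < n := by
    refine (Nat.le_ceil _).trans_lt ?_
    have : ⌈4790016000 * 2 ^ 100 / ξ ^ 16⌉₊ + 1 ≤ n := (le_max_right _ _).trans hn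
    exact_mod_cast this
  have h16 : 16 ≤ ξ * n := by
    rw [div_le_iff₀ hξ] at hn1
    linarith
  have hnpos : (1 : ℝ) ≤ n := by
    have h0 : ξ * n ≤ 1 * n := mul_le_mul_of_nonneg_right (by linarith) (Nat.cast_nonneg n)
    linarith
  have hn0 : (0 : ℝ) < n := by linarith
  set M : ℝ := (⌊ξ * n⌋₊ : ℝ) with hM
  have hM1 : M ≤ ξ * n := Nat.floor_le (by positivity)
  have hM2 : ξ * n < M + 1 := Nat.lt_floor_add_one _
  have hM8 : 8 ≤ M := by linarith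
  have hMn : M ≤ n := by
    have h0 : ξ * n ≤ 1 * n := mul_le_mul_of_nonneg_right (by linarith) (Nat.cast_nonneg n)
    linarith
  set s : ℝ := M ^ ((2 : ℝ) / 3) with hs
  have hs3 : s ^ 3 = M ^ 2 := cube (by linarith)
  have hs0 : 0 ≤ s := Real.rpow_nonneg (by linarith) _
  have hs4 : 4 ≤ s := by
    by_contra hcon
    push Not at hcon
    have h1 : s ^ 3 < 4 ^ 3 := pow_lt_pow_left₀ hcon hs0 (by norm_num)
    rw [hs3] at h1
    nlinarith
  have hsM : s ≤ M := by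
    have := Real.rpow_le_rpow_of_exponent_le (x := M) (by linarith)
      (show (2 : ℝ) / 3 ≤ 1 by norm_num)
    rwa [Real.rpow_one] at this
  refine ⟨s / (16 * n), s / 4, ?_, by positivity, ?_, by positivity, by linarith, ?_⟩
  · exact_mod_cast hn0
  · rw [div_le_one (by positivity)]
    linarith
  · rw [expo hn0]
    have hx : 0 < s ^ 2 / (128 * n) := by positivity
    exact final hnpos hξ hx (xtwelve hn0 hξ (xsix hn0 hξ hs3 (by linarith))) hn2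

end Pool.Agent.Helper45.TP
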